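import Mathlib

/-!
# Infinitely many ideals

* `eq_zero_of_infinite`: a nonzero integer `x` of `K` lies in only finitely many ideals
  (compare `finite_mem_ideal` in `Pool/Agent/W_7742e_h15`), and `𝔞` is injective.
* `monic_of_infinite`: if `Q.map (ι i)` is a characteristic polynomial of an `n × n` matrix for
  infinitely many `i` then `Q` is monic of degree `n`: the coefficients of index `> n` and
  `Q.coeff n - 1` vanish modulo infinitely many of the ideals `𝔞 i` (some care is needed if
  `A i` is the zero ring: then `𝔞 i = ⊤`, which happens for at most one `i`; but then everything is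
  `0` in `A i` and the statement about the coefficients is true as well).
-/

set_option autoImplicit false

open Polynomial NumberField

namespace Pool.Agent.GalMaass

theorem eq_zero_of_infinite {K : Type} [Field K] [NumberField K] (𝔞 : ℕ → Ideal (𝓞 K))
    (h𝔞 : Function.Injective 𝔞) (x : 𝓞 K) (hx : {i | x ∈ 𝔞 i}.Infinite) : x = 0 := by
  by_contra hne
  apply hx
  have h1 : Ideal.span {x} ≠ ⊥ := by
    rw [Ne, Ideal.span_singleton_eq_bot]
    exact hne
  have h2 : {I : Ideal (𝓞 K) | I ∣ Ideal.span {x}}.Finite := by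
    have h3 : Fintype {I : Ideal (𝓞 K) // I ∣ Ideal.span {x}} :=
      UniqueFactorizationMonoid.fintypeSubtypeDvd _ h1
    exact Set.finite_coe_iff.1 (Finite.of_fintype {I : Ideal (𝓞 K) // I ∣ Ideal.span {x}})
  refine (h2.preimage h𝔞.injOn).subset fun i hi => ?_
  exact Ideal.dvd_span_singleton.2 hi

theorem monic_of_infinite {K : Type} [Field K] [NumberField K] {n : ℕ} (𝔞 : ℕ → Ideal (𝓞 K))
    (h𝔞 : Function.Injective 𝔞) (A : ℕ → Type) [∀ i, CommRing (A i)] (ι : ∀ i, 𝓞 K →+* A i)
    (hker : ∀ i, RingHom.ker (ι i) = 𝔞 i) (M : ∀ i, Matrix (Fin n) (Fin n) (A i)) (Q : (𝓞 K)[X])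
    (hQ : {i | (M i).charpoly = Q.map (ι i)}.Infinite) : Q.Monic ∧ Q.natDegree = n := by
  have hgt : ∀ j, n < j → Q.coeff j = 0 := by
    intro j hj
    refine eq_zero_of_infinite 𝔞 h𝔞 _ (hQ.mono fun i hi => ?_)
    have hi' : (M i).charpoly = Q.map (ι i) := hi
    change Q.coeff j ∈ 𝔞 i
    rw [← hker i, RingHom.mem_ker, ← coeff_map, ← hi']
    rcases subsingleton_or_nontrivial (A i) with h | h
    · exact Subsingleton.elim _ _
    · refine coeff_eq_zero_of_natDegree_lt ?_
      rw [Matrix.charpoly_natDegree_eq_dim, Fintype.card_fin]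
      exact hj
  have hn : Q.coeff n - 1 = 0 := by
    refine eq_zero_of_infinite 𝔞 h𝔞 _ (hQ.mono fun i hi => ?_)
    have hi' : (M i).charpoly = Q.map (ι i) := hi
    change Q.coeff n - 1 ∈ 𝔞 i
    rw [← hker i, RingHom.mem_ker, map_sub, map_one, ← coeff_map, ← hi']
    rcases subsingleton_or_nontrivial (A i) with h | h
    · exact Subsingleton.elim _ _
    · have h1 := (Matrix.charpoly_monic (M i)).coeff_natDegree
      rw [Matrix.charpoly_natDegree_eq_dim, Fintype.card_fin] at h1
      rw [h1, sub_self]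
  have hn1 : Q.coeff n = 1 := sub_eq_zero.1 hn
  have hle : Q.natDegree ≤ n := natDegree_le_iff_coeff_eq_zero.2 hgt
  refine ⟨monic_of_natDegree_le_of_coeff_eq_one n hle hn1, le_antisymm hle ?_⟩
  refine le_natDegree_of_ne_zero ?_
  rw [hn1]
  exact one_ne_zero

end Pool.Agent.GalMaass
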