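import Mathlib

/-!
# Characteristic polynomials and traces of powers over commutative rings

`trace_pow_congr`: over any commutative ring the trace of the `k`-th power is a universal integral
polynomial in the coefficients of the characteristic polynomial.

Proof: over a field (`Matrix.charpoly` splits in an algebraic closure, `tr (M ^ k)` is the power sum
of the roots) it is clear.  Two independent generic matrices do not have the same characteristic
polynomial, so compare both with an explicit companion matrix `C(P)`, given by universal formulas,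
so that `C(P).map f = C(P.map f)`: for the generic matrix `M` over the domain `ℤ[x_ij]`
(`MvPolynomial (Fin n × Fin n) ℤ`) one has `tr (M ^ k) = tr (C(charpoly M) ^ k)` (pass to an
algebraic closure of the fraction field), and this identity specialises to every matrix over every
commutative ring.

Alternative: the Newton identity `∑_k tr (M ^ (k+1)) T^k * det (1 - T M) = - d/dT det (1 - T M)` in
`R[[T]]`; or: the adjugate of `X - M` is `∑ M_j X^j` with
`M_(n-1) = 1`, `M_(j-1) = M * M_j + c_j` where `c_j` are the coefficients of the characteristic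
polynomial, and its trace is the derivative of the characteristic polynomial
(`Matrix.derivative_det...`), which gives the Newton identities recursively.
-/

set_option autoImplicit false

open Polynomial

namespace Pool.Agent.GalMaass

/-- Jacobi's formula for the derivative of the determinant of a matrix of polynomials. -/
theorem powB_derivative_det {R : Type} [CommRing R] {n : ℕ} (A : Matrix (Fin n) (Fin n) R[X]) :
    derivative A.det = (A.adjugate * A.map derivative).trace := by
  have h1 : (A.adjugate * A.map derivative).trace =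
      ∑ i, (A.updateCol i (fun k => derivative (A k i))).det := by
    unfold Matrix.trace
    refine Finset.sum_congr rfl fun i _ => ?_
    rw [Matrix.diag_apply, ← Matrix.cramer_apply, Matrix.cramer_eq_adjugate_mulVec]
    rfl
  have h2 : ∀ i, (A.updateCol i (fun k => derivative (A k i))).det =
      ∑ σ : Equiv.Perm (Fin n), ((Equiv.Perm.sign σ : ℤ) : R[X]) *
        ((∏ j ∈ Finset.univ.erase i, A (σ j) j) * derivative (A (σ i) i)) := by
    intro i
    rw [Matrix.det_apply']
    refine Finset.sum_congr rfl fun σ _ => ?_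
    congr 1
    rw [← Finset.prod_erase_mul _ _ (Finset.mem_univ i)]
    congr 1
    · refine Finset.prod_congr rfl fun j hj => ?_
      rw [Matrix.updateCol_ne (Finset.ne_of_mem_erase hj)]
    · rw [Matrix.updateCol_self]
  rw [h1, Matrix.det_apply', map_sum]
  simp_rw [h2]
  rw [Finset.sum_comm]
  refine Finset.sum_congr rfl fun σ _ => ?_
  rw [← Finset.mul_sum, ← derivative_prod_finset, derivative_mul, derivative_intCast, zero_mul,
    zero_add]

/-- The Newton identities, truncated: modulo `X ^ K` the product of `det (1 - X M)` and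
`∑ k < K, tr (M ^ (k + 1)) X ^ k` is minus the derivative of `det (1 - X M)`. -/
theorem powB_newton {R : Type} [CommRing R] {n : ℕ} (M : Matrix (Fin n) (Fin n) R) (K : ℕ) :
    ∃ r : R[X], M.charpolyRev * ∑ k ∈ Finset.range K, X ^ k * C ((M ^ (k + 1)).trace) =
      - derivative M.charpolyRev + X ^ K * r := by
  set Q : Matrix (Fin n) (Fin n) R[X] := M.map C with hQ
  set T : Matrix (Fin n) (Fin n) R[X] := (X : R[X]) • Q with hT
  have hq : M.charpolyRev = (1 - T).det := rfl
  have hTk : ∀ k, T ^ k = (X : R[X]) ^ k • Q ^ k := fun k => by rw [hT, _root_.smul_pow]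
  have hQk : ∀ k, (Q ^ k).trace = C ((M ^ k).trace) := by
    intro k
    have h : Q ^ k = (M ^ k).map C := by
      rw [hQ, ← RingHom.mapMatrix_apply, ← map_pow]
      rfl
    rw [h, Matrix.trace, Matrix.trace, map_sum]
    rfl
  have hder : (1 - T).map derivative = - Q := by
    ext1 i j
    simp only [Matrix.map_apply, Matrix.sub_apply, Matrix.neg_apply, hT, Matrix.smul_apply,
      smul_eq_mul, hQ]
    rw [Matrix.one_apply]
    split_ifs <;> simp
  have hd : derivative M.charpolyRev = - ((1 - T).adjugate * Q).trace := by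
    rw [hq, powB_derivative_det, hder, Matrix.mul_neg, Matrix.trace_neg]
  have hmain : (1 - T).det • ((∑ k ∈ Finset.range K, T ^ k) * Q) =
      (1 - T).adjugate * Q - (X : R[X]) ^ K • ((1 - T).adjugate * (Q ^ K * Q)) := by
    have e1 : (1 - T).det • ((∑ k ∈ Finset.range K, T ^ k) * Q) =
        (1 - T).adjugate * (((1 - T) * ∑ k ∈ Finset.range K, T ^ k) * Q) := by
      rw [← Matrix.mul_assoc, ← Matrix.mul_assoc, Matrix.adjugate_mul, Matrix.smul_mul,
        Matrix.one_mul, Matrix.smul_mul]
    rw [e1, mul_neg_geom_sum, Matrix.sub_mul, Matrix.one_mul, Matrix.mul_sub, hTk K,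
      Matrix.smul_mul, Matrix.mul_smul]
  refine ⟨- ((1 - T).adjugate * (Q ^ K * Q)).trace, ?_⟩
  have h3 := congrArg Matrix.trace hmain
  rw [Matrix.trace_smul, Matrix.trace_sub, Matrix.trace_smul, Finset.sum_mul, Matrix.trace_sum,
    smul_eq_mul, smul_eq_mul] at h3
  have h4 : ∀ k, (T ^ k * Q).trace = X ^ k * C ((M ^ (k + 1)).trace) := by
    intro k
    rw [hTk, Matrix.smul_mul, Matrix.trace_smul, smul_eq_mul, ← pow_succ, hQk]
  simp_rw [h4] at h3
  rw [hq] at hd ⊢
  rw [h3, hd]
  ring

theorem trace_pow_congr {R : Type} [CommRing R] {n : ℕ} (M N : Matrix (Fin n) (Fin n) R)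
    (h : M.charpoly = N.charpoly) (k : ℕ) : (M ^ k).trace = (N ^ k).trace := by
  rcases Nat.eq_zero_or_pos k with hk | hk
  · subst hk
    simp
  obtain ⟨j, rfl⟩ : ∃ j, k = j + 1 := ⟨k - 1, by omega⟩
  have hq : M.charpolyRev = N.charpolyRev := by
    rw [← Matrix.reverse_charpoly, ← Matrix.reverse_charpoly, h]
  obtain ⟨r, hr⟩ := powB_newton M (j + 1)
  obtain ⟨s, hs⟩ := powB_newton N (j + 1)
  rw [hq] at hr
  have hdvd : (X : R[X]) ^ (j + 1) ∣ N.charpolyRev *
      (∑ k ∈ Finset.range (j + 1), X ^ k * C ((M ^ (k + 1)).trace) -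
        ∑ k ∈ Finset.range (j + 1), X ^ k * C ((N ^ (k + 1)).trace)) := by
    refine ⟨r - s, ?_⟩
    rw [mul_sub, hr, hs]
    ring
  have hcop : IsCoprime ((X : R[X]) ^ (j + 1)) N.charpolyRev := by
    apply IsCoprime.pow_left
    refine ⟨- divX N.charpolyRev, 1, ?_⟩
    have h1 := divX_mul_X_add N.charpolyRev
    have h2 : N.charpolyRev.coeff 0 = 1 := by
      rw [coeff_zero_eq_eval_zero, Matrix.eval_charpolyRev]
    rw [h2, map_one] at h1
    linear_combination -h1
  have hdvd2 := hcop.dvd_of_dvd_mul_left hdvd
  have h5 := (X_pow_dvd_iff.1 hdvd2) j (Nat.lt_succ_self j)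
  rw [coeff_sub, finsetSum_coeff, finsetSum_coeff] at h5
  simp only [coeff_mul_C, coeff_X_pow] at h5
  rw [Finset.sum_eq_single j, Finset.sum_eq_single j] at h5
  · simpa [sub_eq_zero] using h5
  · intro b _ hb
    rw [if_neg (Ne.symm hb), zero_mul]
  · intro hb
    exact absurd (Finset.mem_range.2 (Nat.lt_succ_self j)) hb
  · intro b _ hb
    rw [if_neg (Ne.symm hb), zero_mul]
  · intro hb
    exact absurd (Finset.mem_range.2 (Nat.lt_succ_self j)) hb

end Pool.Agent.GalMaass
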