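import Mathlib

/-!
# Traces of powers determine the characteristic polynomial over `ℂ`

`charpoly_of_traces`: power sums determine the roots with multiplicity in characteristic zero
(compare `Pool/Agent/W_b4801b_h24/Cont.lean`, `Pool/Agent/W_MP_a3c811_h79/Newton.lean`,
`Pool/Agent/W_7742e_h15/SS.lean`).
-/

set_option autoImplicit false

open Polynomial

namespace Pool.Agent.GalMaass

/-- Over an algebraically closed field the trace of `g^k` is the sum of the `k`-th powers of the
roots of the characteristic polynomial. -/
theorem PowC_trace_pow {Ω : Type*} [Field Ω] [IsAlgClosed Ω] {W : Type*} [AddCommGroup W]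
    [Module Ω W] [FiniteDimensional Ω W] (g : Module.End Ω W) (k : ℕ) :
    LinearMap.trace Ω W (g ^ k) = (g.charpoly.roots.map (fun z => z ^ k)).sum := by
  classical
  have hint : DirectSum.IsInternal g.maxGenEigenspace := by
    rw [DirectSum.isInternal_submodule_iff_iSupIndep_and_iSup_eq_top]
    exact ⟨g.independent_maxGenEigenspace, Module.End.iSup_maxGenEigenspace_eq_top g⟩
  have hfin : {μ | g.maxGenEigenspace μ ≠ ⊥}.Finite :=
    WellFoundedGT.finite_ne_bot_of_iSupIndep hint.submodule_iSupIndep
  have hmaps : ∀ μ, Set.MapsTo (g ^ k) (g.maxGenEigenspace μ) (g.maxGenEigenspace μ) := fun μ =>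
    g.mapsTo_maxGenEigenspace_of_comm ((Commute.refl g).pow_right k) μ
  rw [LinearMap.trace_eq_sum_trace_restrict' hint hfin hmaps]
  have h1 : ∀ μ, LinearMap.trace Ω (g.maxGenEigenspace μ) ((g ^ k).restrict (hmaps μ)) =
      (Module.finrank Ω (g.maxGenEigenspace μ) : Ω) * μ ^ k := by
    intro μ
    have hm := g.mapsTo_maxGenEigenspace_of_comm (Commute.refl g) μ
    have hnil := g.isNilpotent_restrict_maxGenEigenspace_sub_algebraMap μ
    have e : (g ^ k).restrict (hmaps μ) = (g.restrict hm) ^ k :=
      (Module.End.pow_restrict k hm _).symm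
    rw [e]
    clear e
    induction k with
    | zero => simp
    | succ k ih =>
      have hmaps' : ∀ μ, Set.MapsTo (g ^ k) (g.maxGenEigenspace μ) (g.maxGenEigenspace μ) :=
        fun μ => g.mapsTo_maxGenEigenspace_of_comm ((Commute.refl g).pow_right k) μ
      have h2 := LinearMap.trace_comp_eq_mul_of_commute_of_isNilpotent (R := Ω) μ
        (f := (g.restrict hm) ^ k) (g := g.restrict hm) ((Commute.refl _).pow_left k) hnil
      rw [pow_succ, Module.End.mul_eq_comp, h2, ih hmaps']
      ring
  rw [Finset.sum_congr rfl fun μ _ => h1 μ, Finset.sum_multiset_map_count]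
  have hset : hfin.toFinset = g.charpoly.roots.toFinset := by
    ext μ
    rw [Set.Finite.mem_toFinset, Multiset.mem_toFinset, ← Multiset.count_pos, count_roots,
      ← LinearMap.finrank_maxGenEigenspace_eq]
    constructor
    · intro h
      rw [Nat.pos_iff_ne_zero]
      intro h0
      exact h (Submodule.finrank_eq_zero.1 h0)
    · intro h h0
      rw [h0, finrank_bot] at h
      exact lt_irrefl _ h
  rw [hset]
  refine Finset.sum_congr rfl fun μ _ => ?_
  rw [count_roots, ← LinearMap.finrank_maxGenEigenspace_eq, nsmul_eq_mul]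

/-- The trace of a power of a complex matrix is the power sum of its eigenvalues. -/
theorem PowC_trace_matrix {n : ℕ} (M : Matrix (Fin n) (Fin n) ℂ) (k : ℕ) :
    (M ^ k).trace = (M.charpoly.roots.map (fun z => z ^ k)).sum := by
  have h := PowC_trace_pow (Matrix.toLin' M) k
  rw [← Matrix.toLin'_pow, Matrix.trace_toLin'_eq, Matrix.charpoly_toLin'] at h
  exact h

/-- Power sums determine the multiset in characteristic zero. -/
theorem PowC_multiset {A B : Multiset ℂ}
    (h : ∀ k : ℕ, (A.map (fun z => z ^ k)).sum = (B.map (fun z => z ^ k)).sum) : A = B := by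
  classical
  have hP : ∀ P : ℂ[X], (A.map (fun z => P.eval z)).sum = (B.map (fun z => P.eval z)).sum := by
    intro P
    induction P using Polynomial.induction_on' with
    | add p q hp hq =>
      simp only [eval_add, Multiset.sum_map_add, hp, hq]
    | monomial k a =>
      simp only [eval_monomial, Multiset.sum_map_mul_left, h k]
  ext z
  set S : Finset ℂ := (A + B).toFinset.erase z with hS
  set P : ℂ[X] := ∏ w ∈ S, (X - C w) with hPdef
  have hz : P.eval z ≠ 0 := by
    rw [hPdef, eval_prod, Finset.prod_ne_zero_iff]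
    intro w hw
    rw [eval_sub, eval_X, eval_C, sub_ne_zero]
    intro hzw
    rw [hzw] at hS
    rw [hS] at hw
    exact Finset.notMem_erase w _ hw
  have h0 : ∀ w ∈ S, P.eval w = 0 := by
    intro w hw
    rw [hPdef, eval_prod]
    exact Finset.prod_eq_zero hw (by rw [eval_sub, eval_X, eval_C, sub_self])
  have key : ∀ D : Multiset ℂ, D ≤ A + B →
      (D.map (fun w => P.eval w)).sum = (D.count z : ℂ) * P.eval z := by
    intro D hD
    rw [Finset.sum_multiset_map_count]
    rw [Finset.sum_eq_single z]
    · rw [nsmul_eq_mul]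
    · intro w hw hwz
      rw [h0 w, smul_zero]
      rw [hS, Finset.mem_erase, Multiset.mem_toFinset]
      exact ⟨hwz, Multiset.mem_of_le hD (Multiset.mem_toFinset.1 hw)⟩
    · intro hz'
      rw [Multiset.mem_toFinset] at hz'
      rw [Multiset.count_eq_zero_of_notMem hz', zero_smul]
  have h1 := hP P
  rw [key A (Multiset.le_add_right _ _), key B (Multiset.le_add_left _ _)] at h1
  exact_mod_cast mul_right_cancel₀ hz h1

theorem charpoly_of_traces {n : ℕ} (M N : Matrix (Fin n) (Fin n) ℂ)
    (h : ∀ k : ℕ, (M ^ k).trace = (N ^ k).trace) : M.charpoly = N.charpoly := by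
  have h1 : M.charpoly.roots = N.charpoly.roots := by
    apply PowC_multiset
    intro k
    rw [← PowC_trace_matrix, ← PowC_trace_matrix, h k]
  rw [(IsAlgClosed.splits M.charpoly).eq_prod_roots_of_monic M.charpoly_monic,
    (IsAlgClosed.splits N.charpoly).eq_prod_roots_of_monic N.charpoly_monic, h1]

end Pool.Agent.GalMaass
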