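import Pool.Agent.W_7742g_h15.PowA
import Pool.Agent.W_7742g_h15.PowB
import Pool.Agent.W_7742g_h15.PowC
import Pool.Agent.W_7742g_h15.ClA

/-!
# From traces to characteristic polynomials

`charpoly_clause`: let `C` be a matrix over `𝓞 K` with characteristic polynomial `Q`
(`monic_of_infinite`, `exists_matrix_charpoly`).  For the infinitely many `i` in question and all
`k`, `tr (M i ^ k) = tr ((C.map (ι i)) ^ k) = ι i (tr (C ^ k))` (`trace_pow_congr`,
`Matrix.charpoly_map`), so by hypothesis `tr (N ^ k) = σ (tr (C ^ k))`, and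
`charpoly_of_traces` gives `charpoly N = charpoly (C.map σ) = Q.map σ`.
-/

set_option autoImplicit false

open Polynomial NumberField

namespace Pool.Agent.GalMaass

theorem ClB_trace {R S : Type} [CommRing R] [CommRing S] {n : ℕ} (f : R →+* S)
    (C : Matrix (Fin n) (Fin n) R) (k : ℕ) : ((C.map f) ^ k).trace = f (C ^ k).trace := by
  have h1 : (C.map f) ^ k = (C ^ k).map f := by
    have h2 := map_pow (RingHom.mapMatrix f) C k
    rw [RingHom.mapMatrix_apply, RingHom.mapMatrix_apply] at h2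
    exact h2.symm
  rw [h1]
  unfold Matrix.trace
  rw [map_sum]
  rfl

theorem charpoly_clause {K : Type} [Field K] [NumberField K] {n : ℕ} (𝔞 : ℕ → Ideal (𝓞 K))
    (h𝔞 : Function.Injective 𝔞) (A : ℕ → Type) [∀ i, CommRing (A i)] (ι : ∀ i, 𝓞 K →+* A i)
    (hker : ∀ i, RingHom.ker (ι i) = 𝔞 i) (M : ∀ i, Matrix (Fin n) (Fin n) (A i)) (Q : (𝓞 K)[X])
    (hQ : {i | (M i).charpoly = Q.map (ι i)}.Infinite) (σ : K →+* ℂ)
    (N : Matrix (Fin n) (Fin n) ℂ)
    (hN : ∀ (k : ℕ) (β : 𝓞 K), {i | (M i ^ k).trace = ι i β}.Infinite →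
      (N ^ k).trace = σ (β : K)) :
    N.charpoly = (Q.map (algebraMap (𝓞 K) K)).map σ := by
  obtain ⟨hmonic, hdeg⟩ := monic_of_infinite 𝔞 h𝔞 A ι hker M Q hQ
  obtain ⟨C, hC⟩ := exists_matrix_charpoly Q hmonic n hdeg
  have hk : ∀ k : ℕ, (N ^ k).trace = ((C.map (σ.comp (algebraMap (𝓞 K) K))) ^ k).trace := by
    intro k
    rw [hN k ((C ^ k).trace) (hQ.mono fun i hi => ?_), ClB_trace]
    · rfl
    · show (M i ^ k).trace = ι i (C ^ k).trace
      have h1 : (M i).charpoly = (C.map (ι i)).charpoly := by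
        rw [Matrix.charpoly_map, hC]
        exact hi
      rw [trace_pow_congr (M i) (C.map (ι i)) h1 k, ClB_trace]
  rw [charpoly_of_traces N _ hk, Matrix.charpoly_map, hC, Polynomial.map_map]

end Pool.Agent.GalMaass
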