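import Pool.Agent.W_7742g_h15.Main
import Pool.Agent.W_7742x_h74.ZLog

/-!
# The bound of Rankin and Selberg for a cusp form on `GL_n`, and finite images
-/

set_option autoImplicit false

noncomputable section

open Filter Topology NumberField Polynomial

namespace Pool.Agent.GalMaass

open Pool.Agent.GalSide Pool.Agent.Cheb Pool.Agent.GLForm74

theorem logBound_of_cusp {K : Type} [Field K] [NumberField K] {n : ℕ} (hn : 2 ≤ n)
    (S : Set Nat.Primes) (P : ℕ → (𝓞 K)[X]) (σ : K →+* ℂ) (N : ℕ) (hN : 0 < N)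
    (hNS : ∀ p : Nat.Primes, (p : ℕ) ∣ N → p ∈ S)
    (hP : IsCuspidalSystem N (fun p => ((P p).map (algebraMap (𝓞 K) K)).map σ) n)
    (ε : ℝ) (hε : 0 < ε) :
    LogBound (1 + ε) (fun p => ‖σ (tr' S (fun p => P p) n p : K)‖ ^ 2) := by
  obtain ⟨C, hC⟩ := Pool.Agent.GL74.cusp_log hn hN hP
  have hle : ∀ p : Nat.Primes, ‖σ (tr' S (fun p => P p) n p : K)‖ ^ 2 ≤
      (if (p : ℕ) ∣ N then 0
        else ‖(((P p).map (algebraMap (𝓞 K) K)).map σ).coeff (n - 1)‖ ^ 2) := by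
    intro p
    by_cases hp : p ∈ S
    · have h0 : ‖σ (tr' S (fun p => P p) n p : K)‖ ^ 2 = 0 := by
        simp only [tr', if_pos hp, map_zero, norm_zero]
        norm_num
      rw [h0]
      split_ifs
      · exact le_rfl
      · exact sq_nonneg _
    · have h1 : ¬ (p : ℕ) ∣ N := fun h => hp (hNS p h)
      rw [if_neg h1]
      simp only [tr', if_neg hp, map_neg, norm_neg, coeff_map]
      exact le_rfl
  have hlog : Tendsto (fun s : ℝ => Real.log (1 / (s - 1))) (𝓝[>] 1) atTop := by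
    have h1 : Tendsto (fun s : ℝ => s - 1) (𝓝[>] 1) (𝓝[>] 0) := by
      refine tendsto_nhdsWithin_iff.2 ⟨?_, ?_⟩
      · have : Tendsto (fun s : ℝ => s - 1) (𝓝 1) (𝓝 (1 - 1)) :=
          tendsto_id.sub_const 1
        rw [sub_self] at this
        exact this.mono_left nhdsWithin_le_nhds
      · filter_upwards [self_mem_nhdsWithin] with s hs
        have hs' : (1 : ℝ) < s := hs
        show (0 : ℝ) < s - 1
        linarith
    have h2 : Tendsto (fun s : ℝ => (s - 1)⁻¹) (𝓝[>] 1) atTop :=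
      tendsto_inv_nhdsGT_zero.comp h1
    refine (Real.tendsto_log_atTop.comp h2).congr fun s => ?_
    simp [one_div]
  have h2 : ∀ᶠ s : ℝ in 𝓝[>] 1, s ≤ 2 := by
    have : Set.Iic (2 : ℝ) ∈ 𝓝 (1 : ℝ) := Iic_mem_nhds (by norm_num)
    exact mem_nhdsWithin_of_mem_nhds this
  filter_upwards [self_mem_nhdsWithin, h2, hlog.eventually_ge_atTop (C / ε)] with s hs hs2 hs3
  have hs1 : (1 : ℝ) < s := hs
  obtain ⟨hsum, hbd⟩ := hC s hs1 hs2
  have hnn : ∀ p : Nat.Primes, 0 ≤ ((p : ℕ) : ℝ) ^ (-s) := fun p =>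
    Real.rpow_nonneg (Nat.cast_nonneg _) _
  have hterm : ∀ p : Nat.Primes, ‖σ (tr' S (fun p => P p) n p : K)‖ ^ 2 * ((p : ℕ) : ℝ) ^ (-s) ≤
      (if (p : ℕ) ∣ N then 0
        else ‖(((P p).map (algebraMap (𝓞 K) K)).map σ).coeff (n - 1)‖ ^ 2) *
          ((p : ℕ) : ℝ) ^ (-s) := fun p => mul_le_mul_of_nonneg_right (hle p) (hnn p)
  have hsum' : Summable (fun p : Nat.Primes =>
      ‖σ (tr' S (fun p => P p) n p : K)‖ ^ 2 * ((p : ℕ) : ℝ) ^ (-s)) :=
    Summable.of_nonneg_of_le (fun p => mul_nonneg (by positivity) (hnn p)) hterm hsum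
  refine ⟨hsum', ?_⟩
  calc ∑' p : Nat.Primes, ‖σ (tr' S (fun p => P p) n p : K)‖ ^ 2 * ((p : ℕ) : ℝ) ^ (-s)
      ≤ _ := hsum'.tsum_le_tsum hterm hsum
    _ ≤ Real.log (1 / (s - 1)) + C := hbd
    _ ≤ (1 + ε) * Real.log (1 / (s - 1)) := by
      have h5 : C ≤ Real.log (1 / (s - 1)) * ε := (div_le_iff₀ hε).1 hs3
      linarith

theorem finite_range_of_isOpen {G H : Type} [Group G] [TopologicalSpace G] [IsTopologicalGroup G]
    [CompactSpace G] [Group H] (ρ : G →* H) (h : IsOpen (ρ.ker : Set G)) : Finite ρ.range := by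
  have : Finite (G ⧸ ρ.ker) := Subgroup.quotient_finite_of_isOpen _ h
  exact Finite.of_equiv _ (QuotientGroup.quotientKerEquivRange ρ).toEquiv

end Pool.Agent.GalMaass
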