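import Pool.Agent.W_7742g_h15.ClB
import Pool.Agent.W_7742e_h15.Main
import Pool.Agent.Chebotarev_h15.AppC2

/-!
# Galois representations modulo infinitely many ideals

From `Pool.Agent.GalSide.main` with `D = 1`, `Φ = frobeniusData ...` (Chebotarev is proved),
`b p = tr' S P n p`, `Si' i = Si i ∪ S`.
* The trace of an `n × n` matrix is minus the coefficient of `X^(n-1)` of its characteristic
  polynomial (`Matrix.trace_eq_neg_charpoly_coeff`, `n > 0`).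
* `hRS` gives both Rankin-Selberg hypotheses (`C = 2` and `D ^ 2 + ε`).
* The clause on characteristic polynomials from the clause on traces, applied to the powers `g ^ k`
  (`map_pow`, `Units.val_pow_eq_pow_val`), and `charpoly_clause`.
* Apply it to `g = F p` and `Q = P p` for `p ∉ S`: all `i` with `p ∉ Si i`, so all but finitely
  many.
-/

set_option autoImplicit false

noncomputable section

open Filter Topology NumberField Polynomial

namespace Pool.Agent.GalMaass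

open Pool.Agent.GalSide Pool.Agent.Cheb

open Classical in
/-- The trace which belongs to the polynomial `P p`, for `p ∉ S`; `0` for `p ∈ S`. -/
def tr' {K : Type} [Field K] [NumberField K] (S : Set Nat.Primes) (P : Nat.Primes → (𝓞 K)[X])
    (n : ℕ) (p : Nat.Primes) : 𝓞 K :=
  if p ∈ S then 0 else -(P p).coeff (n - 1)

theorem main {K : Type} [Field K] [NumberField K] {n : ℕ} (hn : 0 < n) (S : Set Nat.Primes)
    (hS : S.Finite) (P : Nat.Primes → (𝓞 K)[X])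
    (hRS : ∀ σ : K →+* ℂ, ∀ ε : ℝ, 0 < ε →
      LogBound (1 + ε) (fun p => ‖σ (tr' S P n p : K)‖ ^ 2))
    (𝔓 : Nat.Primes → Ideal (Zbar ℚ)) (h𝔓 : ∀ p, (𝔓 p).IsPrime)
    (hp : ∀ p : Nat.Primes, ((p : ℕ) : Zbar ℚ) ∈ 𝔓 p) (F : Nat.Primes → AbsGal ℚ)
    (hF : ∀ p : Nat.Primes, IsFrobAt (𝔓 p) (p : ℕ) (F p))
    (𝔞 : ℕ → Ideal (𝓞 K)) (h𝔞 : Function.Injective 𝔞)
    (Si : ℕ → Set Nat.Primes) (hSi : ∀ i, (Si i).Finite)
    (hfin : ∀ p : Nat.Primes, p ∉ S → {i | p ∈ Si i}.Finite)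
    (A : ℕ → Type) [∀ i, CommRing (A i)] (ι : ∀ i, 𝓞 K →+* A i)
    (hker : ∀ i, RingHom.ker (ι i) = 𝔞 i)
    (r : ∀ i, AbsGal ℚ →* GL (Fin n) (A i)) (hcont : ∀ i, IsOpen ((r i).ker : Set (AbsGal ℚ)))
    (hr : ∀ i, ∀ p : Nat.Primes, p ∉ S → p ∉ Si i → inertiaAt (𝔓 p) ≤ (r i).ker ∧
      (r i (F p)).val.charpoly = (P p).map (ι i)) :
    ∀ σ : K →+* ℂ, ∃ ρ : AbsGal ℚ →* GL (Fin n) ℂ, IsOpen (ρ.ker : Set (AbsGal ℚ)) ∧
      (∀ W : Submodule ℂ (Fin n → ℂ), (∀ g, ∀ w ∈ W, (ρ g).val.mulVec w ∈ W) →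
        W = ⊥ ∨ W = ⊤) ∧
      (∀ p : Nat.Primes, p ∉ S → inertiaAt (𝔓 p) ≤ ρ.ker ∧
        (ρ (F p)).val.charpoly = ((P p).map (algebraMap (𝓞 K) K)).map σ) ∧
      (∀ g : AbsGal ℚ, {i | r i g = 1}.Infinite → ρ g = 1) ∧
      (∀ (g : AbsGal ℚ) (Q : (𝓞 K)[X]), {i | (r i g).val.charpoly = Q.map (ι i)}.Infinite →
        (ρ g).val.charpoly = (Q.map (algebraMap (𝓞 K) K)).map σ) := by
  intro σ
  have hne : Nonempty (Fin n) := ⟨⟨0, hn⟩⟩
  have htr : ∀ i, ∀ p ∉ Si i ∪ S, ((1 : ℕ) : A i) * (r i (F p)).val.trace =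
      ι i (tr' S P n p) := by
    intro i p hpi
    rw [Set.mem_union, not_or] at hpi
    have h1 := (hr i p hpi.2 hpi.1).2
    rw [Nat.cast_one, one_mul, Matrix.trace_eq_neg_charpoly_coeff, h1, Polynomial.coeff_map,
      Fintype.card_fin, tr', if_neg hpi.2, map_neg]
  obtain ⟨ρ, h1, h2, -, h4, h5, h6⟩ := GalSide.main (frobeniusData 𝔓 h𝔓 hp F hF) S hS 1
    one_ne_zero (tr' S P n) (fun σ => ⟨1 + 1, hRS σ 1 one_pos⟩) n 𝔞 h𝔞 (fun i => Si i ∪ S)
    (fun i => (hSi i).union hS) (fun p hpS => (hfin p hpS).subset fun i hi =>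
      hi.resolve_right hpS) A ι hker r hcont (fun i p hpi => by
        rw [Set.mem_union, not_or] at hpi
        exact (hr i p hpi.2 hpi.1).1) htr σ
  have hcl : ∀ (g : AbsGal ℚ) (Q : (𝓞 K)[X]), {i | (r i g).val.charpoly = Q.map (ι i)}.Infinite →
      (ρ g).val.charpoly = (Q.map (algebraMap (𝓞 K) K)).map σ := by
    intro g Q hQ
    refine charpoly_clause 𝔞 h𝔞 A ι hker (fun i => (r i g).val) Q hQ σ (ρ g).val ?_
    intro k β hβ
    have h7 := h5 (g ^ k) β (hβ.mono fun i hi => ?_)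
    · rw [Nat.cast_one, one_mul, map_pow, Units.val_pow_eq_pow_val] at h7
      exact h7
    · show ((1 : ℕ) : A i) * (r i (g ^ k)).val.trace = ι i β
      rw [Nat.cast_one, one_mul, map_pow, Units.val_pow_eq_pow_val]
      exact hi
  refine ⟨ρ, h1, h6 fun ε hε => ?_, fun p hpS => ⟨h2 p hpS, hcl (F p) (P p) ?_⟩, h4, hcl⟩
  · have h7 := hRS σ ε hε
    rw [Nat.cast_one, one_pow]
    exact h7
  · have h7 : {i | p ∈ Si i}ᶜ.Infinite := (hfin p hpS).infinite_compl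
    exact h7.mono fun i hi => (hr i p hpS hi).2

end Pool.Agent.GalMaass
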