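import Mathlib

/-!
# A matrix with given characteristic polynomial

`exists_matrix_charpoly`: the companion matrix.  For instance: the matrix of the multiplication by
the root on `AdjoinRoot Q` with its power basis (`AdjoinRoot.powerBasis'`); its characteristic
polynomial is `minpoly R (AdjoinRoot.root Q)` (`charpoly_leftMulMatrix`), which is monic of degree
`n` and kills the root, so it is divisible by `Q` (`AdjoinRoot.mk_eq_zero`) and equal to `Q` by the
degrees.
-/

set_option autoImplicit false

open Polynomial

namespace Pool.Agent.GalMaass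

theorem exists_matrix_charpoly {R : Type} [CommRing R] [Nontrivial R] (Q : R[X]) (hQ : Q.Monic)
    (n : ℕ) (hn : Q.natDegree = n) : ∃ C : Matrix (Fin n) (Fin n) R, C.charpoly = Q := by
  subst hn
  obtain ⟨pb, hpb⟩ : ∃ pb : PowerBasis R (AdjoinRoot Q), pb = AdjoinRoot.powerBasis' hQ :=
    ⟨_, rfl⟩
  have hgen : pb.gen = AdjoinRoot.root Q := by rw [hpb]; rfl
  have hdim : pb.dim = Q.natDegree := by rw [hpb]; rfl
  have h1 := charpoly_leftMulMatrix pb
  have hP : (Algebra.leftMulMatrix pb.basis pb.gen).charpoly = Q := by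
    have hmon := Matrix.charpoly_monic (Algebra.leftMulMatrix pb.basis pb.gen)
    have hdeg := Matrix.charpoly_natDegree_eq_dim (Algebra.leftMulMatrix pb.basis pb.gen)
    rw [Fintype.card_fin] at hdeg
    replace hdeg := hdeg.trans hdim
    have h0 : aeval (AdjoinRoot.root Q) (Algebra.leftMulMatrix pb.basis pb.gen).charpoly = 0 := by
      rw [h1, ← hgen]
      exact minpoly.aeval R pb.gen
    rw [AdjoinRoot.aeval_eq, AdjoinRoot.mk_eq_zero] at h0
    exact (Polynomial.eq_of_monic_of_dvd_of_natDegree_le hQ hmon h0 hdeg.le)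
  rw [← hdim]
  exact ⟨_, hP⟩

end Pool.Agent.GalMaass
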